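import Pool.Agent.Results.MP_12e723_gt.SeparableCounterexample

/-!
A nearly metrizable separable space without isolated points that is not base resolvable.

The space of the starting file is the union of the closed subspace of its points `L x`, which is
the product of countably many discrete spaces, and of countably many clopen copies of the rationals.
It is shown to be first countable, zero-dimensional, perfect and submetrizable.
-/

set_option autoImplicit false
set_option linter.all false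

open Set TopologicalSpace Topology Cardinal

namespace Pool.Agent.Results.MP_12e723_gt.NearlyMetrizable

open Pool.Agent.Results.MP_12e723_gt.SeparableCounterexample

/-- The cardinality of the space. -/
theorem mk_Z : #Z = 𝔠 := by
  have hC : #(ℕ → Bool) = 𝔠 := by simp
  have hK : #K = 𝔠 := by
    show #(Option (ℕ → Bool)) = 𝔠
    rw [mk_option, hC]
    exact add_one_eq aleph0_le_continuum
  have hX : #X0 = 𝔠 := by
    show #(ℕ → K) = 𝔠
    rw [← power_def, mk_nat, hK, continuum_power_aleph0]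
  have hR : #(Om × ℚ) ≤ ℵ₀ := mk_le_aleph0
  show #(X0 ⊕ (Om × ℚ)) = 𝔠
  rw [mk_sum, lift_id, lift_id, hX]
  exact add_eq_left aleph0_le_continuum (hR.trans aleph0_le_continuum)

/-- Criterion for continuity. -/
theorem continuous_of {Y : Type} [TopologicalSpace Y] {f : Z → Y}
    (h1 : ∀ σ, Continuous fun q => f (R σ q))
    (h2 : ∀ x, ∀ U : Set Y, IsOpen U → f (L x) ∈ U → ∃ n, ∀ p ∈ cyl x n \ Sx x, f p ∈ U) :
    Continuous f := by
  refine ⟨fun U hU => ?_⟩
  rw [isOpen_iff']
  refine ⟨fun x hx => ?_, fun σ => (h1 σ).isOpen_preimage U hU⟩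
  obtain ⟨n, hn⟩ := h2 x U hU hx
  exact ⟨n, hn⟩

theorem continuous_R (σ : Om) : Continuous (R σ) := by
  refine ⟨fun U hU => (isOpen_iff'.1 hU).2 σ⟩

theorem isOpenEmbedding_R (σ : Om) : IsOpenEmbedding (R σ) := by
  refine IsOpenEmbedding.of_continuous_injective_isOpenMap (continuous_R σ)
    (fun q r h => (R_inj h).2) fun V hV => ?_
  have : R σ '' V = {p : Z | ∃ q ∈ V, p = R σ q} := by
    ext p
    constructor
    · rintro ⟨q, hq, rfl⟩
      exact ⟨q, hq, rfl⟩
    · rintro ⟨q, hq, rfl⟩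
      exact ⟨q, hq, rfl⟩
  rw [this]
  exact isOpen_slice hV

theorem nhds_L (x : X0) : (𝓝 (L x)).HasBasis (fun _ : ℕ => True) (fun n => cyl x n \ Sx x) := by
  refine ⟨fun s => ?_⟩
  rw [mem_nhds_iff]
  constructor
  · rintro ⟨U, hUs, hU, hx⟩
    obtain ⟨n, hn⟩ := (isOpen_iff'.1 hU).1 x hx
    exact ⟨n, trivial, hn.trans hUs⟩
  · rintro ⟨n, -, hn⟩
    exact ⟨cyl x n \ Sx x, hn, (isOpen_cyl x n).sdiff (isClosed_Sx x), mem_self x n⟩

theorem firstCountable : FirstCountableTopology Z := by
  refine ⟨fun p => ?_⟩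
  rcases Z_cases p with ⟨x, rfl⟩ | ⟨σ, q, rfl⟩
  · exact (nhds_L x).isCountablyGenerated
  · rw [← (isOpenEmbedding_R σ).map_nhds_eq q]
    infer_instance

/-- Small clopen sets of rationals. -/
theorem exists_clopen_rat {q : ℚ} {V : Set ℚ} (hV : IsOpen V) (hq : q ∈ V) :
    ∃ T : Set ℚ, IsClopen T ∧ q ∈ T ∧ T ⊆ V := by
  obtain ⟨ε, hε, hb⟩ := Metric.isOpen_iff.1 hV q hq
  obtain ⟨r, hr, hr0, hrε⟩ := exists_irrational_btwn hε
  refine ⟨{p : ℚ | dist p q < r}, ⟨?_, ?_⟩, ?_, ?_⟩
  · have : {p : ℚ | dist p q < r} = {p : ℚ | dist p q ≤ r} := by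
      ext p
      simp only [mem_ofPred_eq]
      refine ⟨fun h => h.le, fun h => lt_of_le_of_ne h fun h' => hr ?_⟩
      rw [← h', Rat.dist_eq]
      exact ⟨|p - q|, by push_cast; rfl⟩
    rw [this]
    exact isClosed_le (continuous_id.dist continuous_const) continuous_const
  · exact isOpen_lt (continuous_id.dist continuous_const) continuous_const
  · simp only [mem_ofPred_eq, dist_self]
    exact hr0
  · intro p hp
    exact hb (Metric.mem_ball.2 (lt_trans hp hrε))

theorem clopen_basis : IsTopologicalBasis {U : Set Z | IsClopen U} := by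
  refine isTopologicalBasis_of_isOpen_of_nhds (fun U hU => hU.2) fun p U hp hU => ?_
  rcases Z_cases p with ⟨x, rfl⟩ | ⟨σ, q, rfl⟩
  · obtain ⟨n, hn⟩ := (isOpen_iff'.1 hU).1 x hp
    exact ⟨cyl x n \ Sx x, ⟨(isClosed_cyl x n).sdiff (isOpen_Sx x),
      (isOpen_cyl x n).sdiff (isClosed_Sx x)⟩, mem_self x n, hn⟩
  · obtain ⟨T, hT, hqT, hTU⟩ := exists_clopen_rat ((isOpen_iff'.1 hU).2 σ) hp
    refine ⟨{p : Z | ∃ q ∈ T, p = R σ q}, ⟨isClosed_slice hT.1, isOpen_slice hT.2⟩,
      ⟨q, hqT, rfl⟩, ?_⟩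
    rintro _ ⟨r, hr, rfl⟩
    exact hTU hr

theorem isClosed_range_L : IsClosed (range L) := by
  rw [← isOpen_compl_iff, isOpen_iff']
  refine ⟨fun x hx => absurd ⟨x, rfl⟩ hx, fun σ => ?_⟩
  convert isOpen_univ
  ext q
  simp only [mem_ofPred_eq, mem_compl_iff, mem_univ, iff_true]
  rintro ⟨x, hx⟩
  exact L_ne_R hx

theorem compl_range_L : (range L)ᶜ = range (fun p : Om × ℚ => R p.1 p.2) := by
  ext p
  rcases Z_cases p with ⟨x, rfl⟩ | ⟨σ, q, rfl⟩
  · simp only [mem_compl_iff, mem_range_self, not_true_eq_false, false_iff]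
    rintro ⟨p, hp⟩
    exact L_ne_R hp.symm
  · constructor
    · intro _
      exact ⟨(σ, q), rfl⟩
    · rintro - ⟨x, hx⟩
      exact L_ne_R hx

theorem countable_compl : ((range L)ᶜ : Set Z).Countable := by
  rw [compl_range_L]
  exact countable_range _

theorem dense_compl : Dense ((range L)ᶜ : Set Z) := by
  rw [compl_range_L]
  intro p
  rw [mem_closure_iff]
  intro U hU hp
  rcases Z_cases p with ⟨x, rfl⟩ | ⟨σ, q, rfl⟩
  · obtain ⟨n, hn⟩ := (isOpen_iff'.1 hU).1 x hp
    obtain ⟨σ, q, h⟩ := exists_R x n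
    exact ⟨R σ q, hn h, ⟨(σ, q), rfl⟩⟩
  · exact ⟨R σ q, hp, ⟨(σ, q), rfl⟩⟩

theorem metrizable_compl : MetrizableSpace ((range L)ᶜ : Set Z) := by
  haveI := firstCountable
  haveI : Countable ((range L)ᶜ : Set Z) := countable_compl.to_subtype
  haveI : SecondCountableTopology ((range L)ᶜ : Set Z) := inferInstance
  exact metrizableSpace_of_t3_secondCountable _

theorem metrizable_range : IsCompletelyMetrizableSpace (range L) := by
  letI : TopologicalSpace K := ⊥
  haveI : DiscreteTopology K := ⟨rfl⟩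
  have hpre : ∀ (x : X0) (n : ℕ), L ⁻¹' (cyl x n) = PiNat.cylinder x n := by
    intro x n
    ext y
    rw [mem_preimage, mem_cyl_L, PiNat.mem_cylinder_iff]
  have hemb : IsEmbedding (L : (ℕ → K) → Z) := by
    refine ⟨⟨?_⟩, fun x y h => L_inj h⟩
    apply le_antisymm
    · rw [← continuous_iff_le_induced]
      refine ⟨fun U hU => ?_⟩
      rw [isOpen_iff_mem_nhds]
      intro x hx
      obtain ⟨n, hn⟩ := (isOpen_iff'.1 hU).1 x hx
      refine Filter.mem_of_superset ((PiNat.isOpen_cylinder (fun _ => K) x n).mem_nhds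
        (PiNat.self_mem_cylinder x n)) ?_
      rw [← hpre]
      intro y hy
      exact hn ⟨hy, L_notMem_Sx⟩
    · intro V hV
      rw [isOpen_induced_iff]
      refine ⟨⋃ x ∈ V, ⋃ n ∈ {n | PiNat.cylinder x n ⊆ V}, cyl x n,
        isOpen_biUnion fun x _ => isOpen_biUnion fun n _ => isOpen_cyl x n, ?_⟩
      simp only [preimage_iUnion, hpre]
      apply subset_antisymm
      · exact iUnion₂_subset fun x _ => iUnion₂_subset fun n hn => hn
      · intro x hx
        obtain ⟨s, ⟨y, n, rfl⟩, hxs, hsV⟩ :=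
          (PiNat.isTopologicalBasis_cylinders (fun _ => K)).exists_subset_of_mem_open hx hV
        refine mem_biUnion hx (mem_biUnion (x := n) ?_ (PiNat.self_mem_cylinder x n))
        rw [PiNat.mem_cylinder_iff_eq] at hxs
        show PiNat.cylinder x n ⊆ V
        rw [hxs]
        exact hsV
  exact (hemb.toHomeomorph.symm.isClosedEmbedding).IsCompletelyMetrizableSpace

/-- Every closed set is a `Gδ` set. -/
theorem perfect_space (C : Set Z) (hC : IsClosed C) : IsGδ C := by
  haveI := metrizable_range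
  haveI : MetrizableSpace (range L) := inferInstance
  have h1 : IsGδ ((Subtype.val : range L → Z) ⁻¹' C) := by
    letI := metrizableSpaceMetric (range L)
    exact (hC.preimage continuous_subtype_val).isGδ
  rw [isGδ_iff_eq_iInter_nat] at h1
  obtain ⟨W, hW, hWC⟩ := h1
  have hV : ∀ n, ∃ V : Set Z, IsOpen V ∧ (Subtype.val : range L → Z) ⁻¹' V = W n := fun n =>
    isOpen_induced_iff.1 (hW n)
  choose V hVo hVW using hV
  have hCe : C = (⋂ n, (V n ∪ (range L)ᶜ)) ∩ ⋂ p ∈ (range L)ᶜ \ C, ({p} : Set Z)ᶜ := by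
    ext z
    by_cases hz : z ∈ range L
    · have h2 : z ∈ C ↔ ∀ n, z ∈ V n := by
        have h3 : (⟨z, hz⟩ : range L) ∈ (Subtype.val : range L → Z) ⁻¹' C ↔
            ∀ n, (⟨z, hz⟩ : range L) ∈ W n := by
          rw [hWC, mem_iInter]
        simp only [← hVW] at h3
        exact h3
      constructor
      · intro hzC
        refine ⟨mem_iInter.2 fun n => Or.inl (h2.1 hzC n), mem_iInter₂.2 ?_⟩
        rintro p hp hzp
        rw [mem_singleton_iff] at hzp
        rw [hzp] at hzC
        exact hp.2 hzC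
      · rintro ⟨h3, -⟩
        rw [h2]
        intro n
        rcases mem_iInter.1 h3 n with h4 | h4
        · exact h4
        · exact absurd hz h4
    · constructor
      · intro hzC
        refine ⟨mem_iInter.2 fun n => Or.inr hz, mem_iInter₂.2 ?_⟩
        rintro p hp hzp
        rw [mem_singleton_iff] at hzp
        rw [hzp] at hzC
        exact hp.2 hzC
      · rintro ⟨-, h3⟩
        by_contra hcon
        exact mem_iInter₂.1 h3 z ⟨hz, hcon⟩ rfl
  rw [hCe]
  refine IsGδ.inter (.iInter fun n => ((hVo n).union isClosed_range_L.isOpen_compl).isGδ)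
    (.biInter (countable_compl.mono sdiff_subset) fun p _ => isOpen_compl_singleton.isGδ)

/-- Code of a letter of an approximation. -/
def enc : Option Bool → ℕ
  | none => 0
  | some false => 1
  | some true => 2

theorem enc_inj : Function.Injective enc := by
  intro a b h
  rcases a with _ | (_ | _) <;> rcases b with _ | (_ | _) <;> simp_all [enc]

/-- The coordinates of the points. -/
def g1 : Z → (ℕ × ℕ → ℕ) :=
  Sum.elim (fun (x : X0) a => enc ((x a.1).map fun c => c a.2))
    (fun (s : Om × ℚ) a => if h : a.1 < s.1.1 ∧ a.2 < s.1.1 then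
      enc ((s.1.2 ⟨a.1, h.1⟩).map fun c => c ⟨a.2, h.2⟩) else 0)

theorem g1_L (x : X0) (a : ℕ × ℕ) : g1 (L x) a = enc ((x a.1).map fun c => c a.2) := rfl

theorem g1_R (σ : Om) (q : ℚ) (a : ℕ × ℕ) : g1 (R σ q) a =
    if h : a.1 < σ.1 ∧ a.2 < σ.1 then
      enc ((σ.2 ⟨a.1, h.1⟩).map fun c => c ⟨a.2, h.2⟩) else 0 := rfl

theorem continuous_g1 : Continuous g1 := by
  refine continuous_pi fun a => continuous_of (fun σ => ?_) fun x U _ hU => ?_
  · simp only [g1_R]
    exact continuous_const
  · refine ⟨max a.1 a.2 + 1, ?_⟩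
    rintro p ⟨⟨y, rfl, hy⟩ | ⟨σ, q, rfl, h1, h2⟩, -⟩
    · rw [g1_L, hy a.1 (by omega), ← g1_L]
      exact hU
    · have h3 : a.1 < σ.1 ∧ a.2 < σ.1 := by omega
      have h4 : σ.2 ⟨a.1, h3.1⟩ = res σ.1 (x a.1) := h2 ⟨a.1, h3.1⟩ (by
        show a.1 < _
        omega)
      rw [g1_R, dif_pos h3, h4, res, Option.map_map]
      exact hU

/-- A function which is small far out is continuous. -/
theorem continuous_small {h : Z → ℝ} (h0 : ∀ x, h (L x) = 0)
    (h1 : ∀ σ q, |h (R σ q)| ≤ 2 / ((σ.1 : ℝ) + 1)) (h2 : ∀ σ, Continuous fun q => h (R σ q)) :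
    Continuous h := by
  refine continuous_of h2 fun x U hU hx => ?_
  rw [h0] at hx
  obtain ⟨ε, hε, hb⟩ := Metric.isOpen_iff.1 hU 0 hx
  obtain ⟨n, hn⟩ := exists_nat_gt (2 / ε)
  refine ⟨n, ?_⟩
  rintro p ⟨⟨y, rfl, hy⟩ | ⟨σ, q, rfl, h3, h4⟩, -⟩
  · rw [h0]
    exact hx
  · apply hb
    rw [Metric.mem_ball, Real.dist_eq, sub_zero]
    refine (h1 σ q).trans_lt ?_
    have h5 : (n : ℝ) ≤ σ.1 := by exact_mod_cast h3
    have h6 : 2 / ε < (σ.1 : ℝ) + 1 := by linarith
    have h7 : (0 : ℝ) < (σ.1 : ℝ) + 1 := by positivity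
    rw [div_lt_iff₀ hε] at h6
    rw [div_lt_iff₀ h7]
    linarith

theorem exists_code : ∃ c : Om → ℕ, Function.Injective c ∧ ∀ σ : Om, σ.1 ≤ c σ := by
  obtain ⟨e, he⟩ := exists_injective_nat Om
  refine ⟨fun σ => Nat.pair σ.1 (e σ), fun σ τ h => ?_, fun σ => Nat.left_le_pair _ _⟩
  exact he (Nat.pair_eq_pair.1 h).2

theorem condensation : ∃ f : Z → (ℕ × ℕ → ℕ) × ℝ × ℝ, Continuous f ∧ Function.Injective f := by
  obtain ⟨c, hc, hcl⟩ := exists_code
  let g2 : Z → ℝ := Sum.elim (fun _ : X0 => 0) (fun s : Om × ℚ => 1 / ((c s.1 : ℝ) + 1))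
  let g3 : Z → ℝ := Sum.elim (fun _ : X0 => 0)
    (fun s : Om × ℚ => Real.arctan (s.2 : ℝ) / ((c s.1 : ℝ) + 1))
  have g2L : ∀ x, g2 (L x) = 0 := fun _ => rfl
  have g3L : ∀ x, g3 (L x) = 0 := fun _ => rfl
  have g2R : ∀ σ q, g2 (R σ q) = 1 / ((c σ : ℝ) + 1) := fun _ _ => rfl
  have g3R : ∀ σ q, g3 (R σ q) = Real.arctan (q : ℝ) / ((c σ : ℝ) + 1) := fun _ _ => rfl
  have hpos : ∀ σ, (0 : ℝ) < (c σ : ℝ) + 1 := fun σ => by positivity
  have hle : ∀ σ : Om, (σ.1 : ℝ) + 1 ≤ (c σ : ℝ) + 1 := fun σ => by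
    have : (σ.1 : ℝ) ≤ c σ := by exact_mod_cast hcl σ
    linarith
  have hbd : ∀ (σ : Om) (t : ℝ), |t| ≤ 2 → |t / ((c σ : ℝ) + 1)| ≤ 2 / ((σ.1 : ℝ) + 1) := by
    intro σ t ht
    rw [abs_div, abs_of_pos (hpos σ)]
    have h7 : (0 : ℝ) < (σ.1 : ℝ) + 1 := by positivity
    exact div_le_div₀ (by norm_num) ht h7 (hle σ)
  have hg2 : Continuous g2 := by
    refine continuous_small g2L (fun σ q => ?_) fun σ => ?_
    · rw [g2R]
      exact hbd σ 1 (by rw [abs_one]; norm_num)
    · simp only [g2R]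
      exact continuous_const
  have hg3 : Continuous g3 := by
    refine continuous_small g3L (fun σ q => ?_) fun σ => ?_
    · rw [g3R]
      refine hbd σ _ ?_
      have h8 := Real.arctan_lt_pi_div_two (q : ℝ)
      have h9 := Real.neg_pi_div_two_lt_arctan (q : ℝ)
      have h10 := Real.pi_lt_four
      rw [abs_le]
      constructor <;> linarith
    · simp only [g3R]
      exact (Real.continuous_arctan.comp Rat.continuous_coe_real).div_const _
  refine ⟨fun p => (g1 p, g2 p, g3 p), continuous_g1.prodMk (hg2.prodMk hg3), ?_⟩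
  intro p p' h
  obtain ⟨e1, e23⟩ := Prod.mk.inj h
  obtain ⟨e2, e3⟩ := Prod.mk.inj e23
  rcases Z_cases p with ⟨x, rfl⟩ | ⟨σ, q, rfl⟩ <;> rcases Z_cases p' with ⟨y, rfl⟩ | ⟨τ, r, rfl⟩
  · congr 1
    funext j
    have h1 : ∀ n, (x j).map (fun c => c n) = (y j).map fun c => c n := fun n => by
      have := congrFun e1 (j, n)
      rw [g1_L, g1_L] at this
      exact enc_inj this
    cases hx : x j with
    | none =>
      cases hy : y j with
      | none => rfl
      | some d =>
        have := h1 0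
        rw [hx, hy] at this
        simp at this
    | some c =>
      cases hy : y j with
      | none =>
        have := h1 0
        rw [hx, hy] at this
        simp at this
      | some d =>
        congr 1
        funext n
        have := h1 n
        rw [hx, hy] at this
        simpa using this
  · exfalso
    have e2 : g2 (L x) = g2 (R τ r) := e2
    rw [g2L, g2R] at e2
    have := hpos τ
    have h5 : 0 < 1 / ((c τ : ℝ) + 1) := by positivity
    linarith
  · exfalso
    have e2 : g2 (R σ q) = g2 (L y) := e2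
    rw [g2L, g2R] at e2
    have := hpos σ
    have h5 : 0 < 1 / ((c σ : ℝ) + 1) := by positivity
    linarith
  · have e2 : g2 (R σ q) = g2 (R τ r) := e2
    have e3 : g3 (R σ q) = g3 (R τ r) := e3
    rw [g2R, g2R] at e2
    rw [g3R, g3R] at e3
    have h1 : (c σ : ℝ) + 1 = (c τ : ℝ) + 1 := by
      have := hpos σ
      have := hpos τ
      field_simp at e2
      linarith
    have h2 : σ = τ := hc (by
      have : (c σ : ℝ) = c τ := by linarith
      exact_mod_cast this)
    subst h2
    have h3 : Real.arctan (q : ℝ) = Real.arctan (r : ℝ) := by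
      have := hpos σ
      field_simp at e3
      exact e3
    have h4 : (q : ℝ) = r := Real.arctan_injective h3
    have h5 : q = r := by exact_mod_cast h4
    rw [h5]

/-- There is a separable `T₃` space `X` without isolated points that is not base resolvable and is
nearly metrizable: it has the cardinality of the continuum, it is first countable,
zero-dimensional and perfect, it is the union of a closed completely metrizable subspace and a
countable dense open metrizable subspace, and it has a continuous injection into a separable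
metrizable space. -/
theorem result : ∃ (X : Type) (_ : TopologicalSpace X), T3Space X ∧ SeparableSpace X ∧
    (∀ x : X, ¬ IsOpen ({x} : Set X)) ∧
    #X = 𝔠 ∧ FirstCountableTopology X ∧ IsTopologicalBasis {U : Set X | IsClopen U} ∧
    (∀ C : Set X, IsClosed C → IsGδ C) ∧
    (∃ F : Set X, IsClosed F ∧ IsCompletelyMetrizableSpace F ∧
      Fᶜ.Countable ∧ Dense Fᶜ ∧ MetrizableSpace (Fᶜ : Set X)) ∧
    (∃ (Y : Type) (_ : TopologicalSpace Y) (f : X → Y), MetrizableSpace Y ∧
      SecondCountableTopology Y ∧ Continuous f ∧ Function.Injective f) ∧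
    ∃ B : Set (Set X), IsTopologicalBasis B ∧
      ∀ B0 B1 : Set (Set X), B0 ∪ B1 = B → Disjoint B0 B1 →
        ¬ (IsTopologicalBasis B0 ∧ IsTopologicalBasis B1) := by
  obtain ⟨f, hf, hfi⟩ := condensation
  exact ⟨Z, inferInstance, inferInstance, inferInstance, perfect, mk_Z, firstCountable,
    clopen_basis, perfect_space,
    ⟨range L, isClosed_range_L, metrizable_range, countable_compl, dense_compl, metrizable_compl⟩,
    ⟨(ℕ × ℕ → ℕ) × ℝ × ℝ, inferInstance, f, inferInstance, inferInstance, hf, hfi⟩,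
    Bs, isBasis, fun B0 B1 hU hd h => main B0 B1 hU hd h.1 h.2⟩

end Pool.Agent.Results.MP_12e723_gt.NearlyMetrizable
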